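import Pool.Agent.Lib.MP_5de024_nt.C.Pk2
import Pool.Agent.Lib.MP_5de024_nt.C.GeoA

/-!
# Generic elements modulo constants
-/

set_option autoImplicit false
set_option linter.unusedSectionVars false

namespace Pool.Agent.AB3

open Pool.Agent.AB

theorem pkA_int (p : ℕ) [Fact p.Prime] (L : Type) [Field L] [Algebra (Rx p) L] (c : L)
    (hc : IsCst p c) : IsIntegral (Rx p) c := by
  obtain ⟨n, hn, he⟩ := hc
  have h1 : 1 < p ^ n := Nat.one_lt_pow hn.ne' (Fact.out : p.Prime).one_lt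
  refine ⟨Polynomial.X ^ p ^ n - Polynomial.X, Polynomial.monic_X_pow_sub ?_, ?_⟩
  · rw [Polynomial.degree_X]
    exact_mod_cast h1
  · rw [Polynomial.eval₂_sub, Polynomial.eval₂_X_pow, Polynomial.eval₂_X, he, sub_self]

theorem pkA_cst (p : ℕ) [Fact p.Prime] (L : Type) [Field L] [Algebra (Rx p) L] (c : ZMod p) :
    IsCst p (cst p L c) := ⟨1, one_pos, by rw [pow_one, ← map_pow, ZMod.pow_card]⟩

theorem pkA_sum (p : ℕ) [Fact p.Prime] (L : Type) [Field L] [CharP L p] (ι : Type)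
    (s : Finset ι) (f : ι → L) (hf : ∀ i ∈ s, IsCst p (f i)) : IsCst p (∑ i ∈ s, f i) := by
  classical
  induction s using Finset.induction_on with
  | empty => rw [Finset.sum_empty]; exact IsCst.zero
  | insert i s hi ih =>
    rw [Finset.sum_insert hi]
    exact (hf i (Finset.mem_insert_self i s)).add
      (ih fun j hj => hf j (Finset.mem_insert_of_mem hj))

/-- there is a fixed vector `h` such that `a + h + c` is not in `℘ (L ^ r)` for all vectors `c` of
constants -/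
theorem gen_fix2 (p : ℕ) [Fact p.Prime] (L : Type) [Field L] [Algebra (Fx p) L]
    [Algebra (Rx p) L] [IsScalarTower (Rx p) (Fx p) L] (r : ℕ) [FiniteDimensional (Fx p) L]
    [IsGalois (Fx p) L] (hr : 0 < r) (A : Gl p L → Matrix (Fin r) (Fin r) (ZMod p))
    (hA1 : A 1 = 1) (hA : ∀ σ τ, A (σ * τ) = A σ * A τ) (a : Fin r → Oc p L) :
    ∃ h : Fin r → Oc p L, (∀ σ : Gl p L, sv p L r A σ h = h) ∧
      ∀ (y c : Fin r → L), (∀ i, IsCst p (c i)) →
        ∃ i, y i ^ p - y i ≠ ((a i + h i : Oc p L) : L) + c i := by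
  classical
  by_contra hno
  push Not at hno
  have hchar : CharP (Oc p L) p := charP_of p (Oc p L)
  have hcharL : CharP L p := charP_of p L
  -- `sv` is additive and commutes with the multiplication by `x`
  have hadd : ∀ σ z w, sv p L r A σ (z + w) = sv p L r A σ z + sv p L r A σ w := by
    intro σ z w
    funext i
    simp only [sv, Pi.add_apply, map_add, mul_add, Finset.sum_add_distrib]
  have hzero : ∀ σ, sv p L r A σ 0 = 0 := by
    intro σ
    funext i
    simp only [sv, Pi.zero_apply, map_zero, mul_zero, Finset.sum_const_zero]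
  have hneg : ∀ σ z, sv p L r A σ (-z) = -sv p L r A σ z := by
    intro σ z
    rw [eq_neg_iff_add_eq_zero, ← hadd, neg_add_cancel, hzero]
  have hsub : ∀ σ z w, sv p L r A σ (z - w) = sv p L r A σ z - sv p L r A σ w := by
    intro σ z w
    rw [sub_eq_add_neg, hadd, hneg, ← sub_eq_add_neg]
  obtain ⟨H, hH⟩ : ∃ H : AddSubgroup (Fin r → Oc p L), ∀ z,
      z ∈ H ↔ ∀ σ : Gl p L, sv p L r A σ z = z :=
    ⟨{ carrier := {z | ∀ σ : Gl p L, sv p L r A σ z = z}
       add_mem' := fun {z w} hz hw σ => by rw [hadd, hz σ, hw σ]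
       zero_mem' := hzero
       neg_mem' := fun {z} hz σ => by rw [hneg, hz σ] }, fun _ => Iff.rfl⟩
  obtain ⟨x, hx⟩ : ∃ x : (Fin r → Oc p L) →+ (Fin r → Oc p L), ∀ z,
      x z = fun i => xo p L * z i :=
    ⟨{ toFun := fun z i => xo p L * z i
       map_zero' := by
        funext i
        exact mul_zero _
       map_add' := fun z w => by
        funext i
        exact mul_add _ _ _ }, fun _ => rfl⟩
  have hxH : ∀ z ∈ H, x z ∈ H := by
    intro z hz
    rw [hH] at hz ⊢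
    intro σ
    funext i
    rw [hx]
    simp only [sv, map_mul, act_xo]
    rw [← congrFun (hz σ) i]
    simp only [sv, Finset.mul_sum]
    exact Finset.sum_congr rfl fun j _ => by ring
  -- the vectors of constants
  obtain ⟨T, hT⟩ : ∃ T : Set (Fin r → Oc p L), ∀ v, v ∈ T ↔ ∀ i, IsCst p ((v i : Oc p L) : L) :=
    ⟨{v | ∀ i, IsCst p ((v i : Oc p L) : L)}, fun _ => Iff.rfl⟩
  have hTf : T.Finite := by
    have h1 : {f : Fin r → L | ∀ i, f i ∈ {c : L | IsCst p c}}.Finite :=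
      Set.Finite.pi' fun _ => cst_finite p L
    refine (h1.preimage (f := fun (z : Fin r → Oc p L) i => ((z i : Oc p L) : L)) ?_).subset ?_
    · intro z _ w _ he
      funext i
      exact Subtype.ext (congrFun he i)
    · intro z hz i
      exact (hT z).mp hz i
  have hTsub : ∀ v ∈ T, ∀ w ∈ T, v - w ∈ T := by
    intro v hv w hw
    rw [hT] at hv hw ⊢
    intro i
    exact (hv i).sub (hw i)
  have hTsv : ∀ σ, ∀ v ∈ T, sv p L r A σ v ∈ T := by
    intro σ v hv
    rw [hT] at hv ⊢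
    intro i
    have h1 : ((sv p L r A σ v i : Oc p L) : L) = ∑ j, cst p L (A σ i j) * σ ((v j : Oc p L) : L) := by
      have h2 := map_sum (Oc p L).val (fun j => cst p (Oc p L) (A σ i j) * act p L σ (v j))
        Finset.univ
      exact h2
    rw [h1]
    refine pkA_sum p L _ _ _ fun j _ => (pkA_cst p L _).mul ?_
    exact (hv j).map (σ : L →+* L)
  -- all fixed vectors are values of `wp` up to constants
  have hy : ∀ h ∈ H, ∃ y : Fin r → Oc p L, ∃ c ∈ T, wp p L r y = a + h + c := by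
    intro h hh
    obtain ⟨y, c, hc, hy⟩ := hno h ((hH h).mp hh)
    obtain ⟨c', hc'⟩ : ∃ c' : Fin r → Oc p L, ∀ i, ((c' i : Oc p L) : L) = c i :=
      ⟨fun i => ⟨c i, pkA_int p L (c i) (hc i)⟩, fun _ => rfl⟩
    have hy' : ∀ i, y i ^ p - y i = ((a i + h i + c' i : Oc p L) : L) := by
      intro i
      rw [hy i, ← hc' i]
      rfl
    refine ⟨fun i => ⟨y i, as_int p L (y i) (a i + h i + c' i) (hy' i)⟩, c', ?_, ?_⟩
    · rw [hT]
      intro i
      rw [hc' i]
      exact hc i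
    · funext i
      exact Subtype.ext (hy' i)
  choose! Y Cc hCc hY using hy
  obtain ⟨Z, hZ⟩ : ∃ Z : (Fin r → Oc p L) → (Fin r → Oc p L), ∀ h, Z h = Y h - Y 0 :=
    ⟨_, fun _ => rfl⟩
  obtain ⟨E, hE⟩ : ∃ E : (Fin r → Oc p L) → (Fin r → Oc p L), ∀ h, E h = Cc h - Cc 0 :=
    ⟨_, fun _ => rfl⟩
  have hET : ∀ h ∈ H, E h ∈ T := by
    intro h hh
    rw [hE]
    exact hTsub _ (hCc h hh) _ (hCc 0 H.zero_mem)
  have hZw : ∀ h ∈ H, wp p L r (Z h) = h + E h := by
    intro h hh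
    rw [hZ, hE, pk1_wp_sub, hY h hh, hY 0 H.zero_mem]
    abel
  obtain ⟨V, hV⟩ : ∃ V : (Fin r → Oc p L) → Gl p L → (Fin r → Oc p L), ∀ h σ,
      V h σ = sv p L r A σ (Z h) - Z h := ⟨_, fun _ _ => rfl⟩
  have hVT : ∀ h ∈ H, ∀ σ, V h σ ∈ T := by
    intro h hh σ
    have h2 : wp p L r (V h σ) = sv p L r A σ (E h) - E h := by
      rw [hV, pk1_wp_sub, pk1_wp_sv, hZw h hh, hadd, (hH h).mp hh σ]
      abel
    have h3 : sv p L r A σ (E h) - E h ∈ T := hTsub _ (hTsv σ _ (hET h hh)) _ (hET h hh)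
    rw [hT] at h3 ⊢
    intro i
    have h4 := congrArg (fun z : Oc p L => (z : L)) (congrFun h2 i)
    exact IsCst.of_as (v := ((V h σ i : Oc p L) : L))
      (e := (((sv p L r A σ (E h) - E h) i : Oc p L) : L)) h4 (h3 i)
  -- representatives
  obtain ⟨U, hU⟩ : ∃ U : (Fin r → Oc p L) → (Fin r → Oc p L) × (Gl p L → Fin r → Oc p L), ∀ h,
      U h = (E h, V h) := ⟨_, fun _ => rfl⟩
  have hrep : ∀ u : (Fin r → Oc p L) × (Gl p L → Fin r → Oc p L),
      ∃ s ∈ H, ∀ h ∈ H, U h = u → U s = u := by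
    intro u
    by_cases hu : ∃ s ∈ H, U s = u
    · obtain ⟨s, hs, hsu⟩ := hu
      exact ⟨s, hs, fun _ _ _ => hsu⟩
    · exact ⟨0, H.zero_mem, fun h hh he => absurd ⟨h, hh, he⟩ hu⟩
  choose R hR1 hR2 using hrep
  have hIf : (T ×ˢ {f : Gl p L → Fin r → Oc p L | ∀ σ, f σ ∈ T}).Finite :=
    hTf.prod (Set.Finite.pi' fun _ => hTf)
  have hUI : ∀ h ∈ H, U h ∈ T ×ˢ {f : Gl p L → Fin r → Oc p L | ∀ σ, f σ ∈ T} := by
    intro h hh
    rw [hU]
    exact ⟨hET h hh, fun σ => hVT h hh σ⟩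
  have hS : ∀ h ∈ H, ∃ s ∈ hIf.toFinset.image R, ∃ d ∈ H, h = s + wp p L r d := by
    intro h hh
    have hUU := hR2 (U h) h hh rfl
    rw [hU (R (U h)), hU h] at hUU
    have hE2 : E (R (E h, V h)) = E h := congrArg Prod.fst hUU
    have hV2 : V (R (E h, V h)) = V h := congrArg Prod.snd hUU
    rw [← hU h] at hE2 hV2
    refine ⟨R (U h), Finset.mem_image_of_mem R ((Set.Finite.mem_toFinset _).mpr (hUI h hh)),
      Z h - Z (R (U h)), ?_, ?_⟩
    · rw [hH]
      intro σ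
      have h1 := hV h σ
      have h2 := hV (R (U h)) σ
      rw [hV2, h1] at h2
      rw [hsub]
      rw [sub_eq_sub_iff_add_eq_add] at h2 ⊢
      rw [h2]
      abel
    · rw [pk1_wp_sub, hZw h hh, hZw _ (hR1 _), hE2]
      abel
  obtain ⟨D, β, hD1, hD2, hD3, hD4, hD5, hD6⟩ := pk2_deg p L r
  obtain ⟨κ, hκ1, hκ2⟩ := pk2_fixed p L r hr A hA1 hA
  refine pk2_count H D β hD1 hD2 hD3 hD4 x (fun z hz => ?_) hxH (wp p L r) (fun z => ?_)
    (hIf.toFinset.image R) hS ⟨κ, (hH κ).mpr hκ1, hκ2⟩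
  · rw [hx]
    exact hD5 z hz
  · have h1 := hD6 z
    have h2 : (fun i => z i ^ p) = wp p L r z + z := by
      funext i
      simp only [wp, Pi.add_apply, sub_add_cancel]
    rw [h2] at h1
    have h3 := hD3 (wp p L r z) z
    have hp : 2 ≤ p := (Fact.out : p.Prime).two_le
    have h4 : 2 * D z ≤ p * D z := Nat.mul_le_mul_right _ hp
    rcases le_total (D (wp p L r z)) (D z) with h5 | h5
    · rw [max_eq_right h5] at h3
      omega
    · rw [max_eq_left h5] at h3
      omega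

end Pool.Agent.AB3
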