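import Pool.Agent.Lib.MP_5de024_nt.S.Defs

/-!
# Additive Hilbert 90 for the constants
-/

set_option autoImplicit false
set_option linter.unusedSectionVars false

namespace Pool.Agent.AB3

open Pool.Agent.AB

/-- elements of the prime field are constants -/
private theorem pkH_zmod (p : ℕ) [Fact p.Prime] (M : Type) [Field M] [Algebra (Rx p) M]
    (a : ZMod p) : IsCst p (cst p M a) :=
  ⟨1, one_pos, by rw [pow_one, ← map_pow, ZMod.pow_card]⟩

private theorem pkH_sum (p : ℕ) [Fact p.Prime] (M : Type) [Field M] [CharP M p] {ι : Type}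
    (s : Finset ι) (f : ι → M) (h : ∀ i ∈ s, IsCst p (f i)) : IsCst p (∑ i ∈ s, f i) := by
  classical
  induction s using Finset.induction_on with
  | empty =>
    rw [Finset.sum_empty]
    exact IsCst.zero
  | insert a s ha ih =>
    rw [Finset.sum_insert ha]
    exact (h a (Finset.mem_insert_self a s)).add
      (ih fun i hi => h i (Finset.mem_insert_of_mem hi))

/-- if `T` acts faithfully on the constants then every homomorphism of `T` to `F_p` is the
coboundary of a constant -/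
theorem cst_h90 (p : ℕ) [Fact p.Prime] (M : Type) [Field M] [Algebra (Fx p) M]
    [Algebra (Rx p) M] [IsScalarTower (Rx p) (Fx p) M] [FiniteDimensional (Fx p) M]
    [IsGalois (Fx p) M] (T : Subgroup (Gl p M)) (hT : ∀ τ ∈ T, τ ∈ Gc p M → τ = 1)
    (e : Gl p M → ZMod p) (he : ∀ σ ∈ T, ∀ τ ∈ T, e (σ * τ) = e σ + e τ) :
    ∃ κ : M, IsCst p κ ∧ ∀ τ ∈ T, τ κ = κ + cst p M (e τ) := by
  have hch : CharP M p := charP_of_injective_algebraMap (algebraMap (Fx p) M).injective p
  have hft : Fintype T := Fintype.ofFinite T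
  have hmapc : ∀ (σ : Gl p M) {c : M}, IsCst p c → IsCst p (σ c) := fun σ c hc =>
    hc.map (σ : M →+* M)
  have hzm : ∀ (σ : Gl p M) (a : ZMod p), σ (cst p M a) = cst p M a := by
    intro σ a
    have h1 : cst p M a = algebraMap (Fx p) M (algebraMap (Rx p) (Fx p) (Polynomial.C a)) := by
      rw [← IsScalarTower.algebraMap_apply]
      rfl
    rw [h1, σ.commutes]
  -- the monoid of constants
  obtain ⟨k, hk⟩ : ∃ k : Submonoid M, ∀ c, c ∈ k ↔ IsCst p c :=
    ⟨{ carrier := {c | IsCst p c}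
       mul_mem' := IsCst.mul
       one_mem' := IsCst.one }, fun c => Iff.rfl⟩
  obtain ⟨χ, hχ⟩ : ∃ χ : T → (k →* M), ∀ t c, χ t c = (t : Gl p M) (c : M) :=
    ⟨fun t =>
      { toFun := fun c => (t : Gl p M) (c : M)
        map_one' := map_one _
        map_mul' := fun a b => map_mul _ _ _ }, fun t c => rfl⟩
  have hinj : Function.Injective χ := by
    intro t t' htt
    have h1 : ((t' : Gl p M)⁻¹ * (t : Gl p M)) ∈ Gc p M := by
      intro c hc
      have h2 := DFunLike.congr_fun htt ⟨c, (hk c).2 hc⟩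
      rw [hχ, hχ] at h2
      rw [AlgEquiv.mul_apply, h2, AlgEquiv.aut_inv, AlgEquiv.symm_apply_apply]
    have h2 := hT _ (T.mul_mem (T.inv_mem t'.2) t.2) h1
    exact Subtype.ext (inv_mul_eq_one.1 h2).symm
  have hli := (linearIndependent_monoidHom k M).comp χ hinj
  obtain ⟨θ0, hθ0, hd⟩ : ∃ θ0 : M, IsCst p θ0 ∧ ∑ t : T, (t : Gl p M) θ0 ≠ 0 := by
    by_contra hcon
    push Not at hcon
    have h1 := Fintype.linearIndependent_iff.1 hli (fun _ => 1) (by
      funext c
      rw [Finset.sum_apply, Pi.zero_apply]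
      have h2 := hcon (c : M) ((hk _).1 c.2)
      rw [← h2]
      refine Finset.sum_congr rfl fun t _ => ?_
      rw [Pi.smul_apply, one_smul, Function.comp_apply, hχ]) 1
    exact one_ne_zero h1
  -- translation of sums over `T`
  have htr : ∀ (s : T) (f : T → M), ∑ t : T, f (s * t) = ∑ t : T, f t := fun s f =>
    Fintype.sum_equiv (Equiv.mulLeft s) _ _ fun t => rfl
  obtain ⟨d, hdd⟩ : ∃ d : M, d = ∑ t : T, (t : Gl p M) θ0 := ⟨_, rfl⟩
  rw [← hdd] at hd
  have hdfix : ∀ s : T, (s : Gl p M) d = d := by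
    intro s
    rw [hdd, map_sum]
    exact htr s fun t => (t : Gl p M) θ0
  have hdc : IsCst p d := by
    rw [hdd]
    exact pkH_sum p M _ _ fun t _ => hmapc _ hθ0
  obtain ⟨θ, hθ⟩ : ∃ θ : M, θ = θ0 / d := ⟨_, rfl⟩
  have hθc : IsCst p θ := by
    rw [hθ]
    exact hθ0.div hdc
  have hθ1 : ∑ t : T, (t : Gl p M) θ = 1 := by
    rw [hθ]
    have h1 : ∀ t : T, (t : Gl p M) (θ0 / d) = (t : Gl p M) θ0 / d := by
      intro t
      rw [map_div₀, hdfix]
    rw [Finset.sum_congr rfl fun t _ => h1 t, ← Finset.sum_div, ← hdd, div_self hd]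
  refine ⟨-∑ t : T, cst p M (e t) * (t : Gl p M) θ, ?_, ?_⟩
  · exact (pkH_sum p M _ _ fun t _ => (pkH_zmod p M _).mul (hmapc _ hθc)).neg
  · intro s hs
    have h1 : s (∑ t : T, cst p M (e t) * (t : Gl p M) θ) =
        ∑ t : T, (cst p M (e t) - cst p M (e s)) * (t : Gl p M) θ := by
      rw [map_sum, ← htr ⟨s, hs⟩ fun t => (cst p M (e t) - cst p M (e s)) * (t : Gl p M) θ]
      refine Finset.sum_congr rfl fun t _ => ?_
      have h2 : ((⟨s, hs⟩ * t : T) : Gl p M) = s * (t : Gl p M) := rfl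
      rw [h2, he s hs t t.2, map_mul, hzm, map_add, add_sub_cancel_left, AlgEquiv.mul_apply]
    rw [map_neg, h1]
    have h2 : ∑ t : T, (cst p M (e t) - cst p M (e s)) * (t : Gl p M) θ =
        ∑ t : T, cst p M (e t) * (t : Gl p M) θ - cst p M (e s) * ∑ t : T, (t : Gl p M) θ := by
      rw [Finset.mul_sum, ← Finset.sum_sub_distrib]
      exact Finset.sum_congr rfl fun t _ => sub_mul _ _ _
    rw [h2, hθ1, mul_one]
    ring

end Pool.Agent.AB3
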