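import Pool.Agent.Lib.MP_5de024_nt.C.Pk4
import Pool.Agent.Lib.MP_5de024_nt.C.Geo
import Pool.Agent.Lib.MP_5de024_nt.S.E.MsA
import Pool.Agent.Lib.MP_5de024_nt.S.PkX.PkA
import Pool.Agent.Lib.MP_5de024_nt.S.PkX.PkH

/-!
# Minimal kernels, with the geometric part
-/

set_option autoImplicit false
set_option linter.unusedSectionVars false

namespace Pool.Agent.AB3

open Pool.Agent.AB

/-- the geometric part is normal -/
theorem PkB_normal (p : ℕ) [Fact p.Prime] (M : Type) [Field M] [Algebra (Fx p) M]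
    (σ τ : Gl p M) (hσ : σ ∈ Gc p M) : τ * σ * τ⁻¹ ∈ Gc p M := by
  intro c hc
  have h1 : IsCst p (τ⁻¹ c) := hc.map ((τ⁻¹ : Gl p M) : M →+* M)
  rw [AlgEquiv.mul_apply, AlgEquiv.mul_apply, hσ _ h1]
  exact AlgEquiv.apply_symm_apply τ c

/-- the case of a kernel which meets the geometric part trivially is impossible -/
theorem PkB_bot (p : ℕ) [Fact p.Prime] (L M : Type) [Field L] [Algebra (Fx p) L]
    [Algebra (Rx p) L] [IsScalarTower (Rx p) (Fx p) L] [Field M] [Algebra (Fx p) M]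
    [Algebra (Rx p) M] [IsScalarTower (Rx p) (Fx p) M] [FiniteDimensional (Fx p) M]
    [IsGalois (Fx p) M] (r : ℕ) (ι : L →ₐ[Fx p] M) (ρ : Gl p M →* Gl p L) (y : Fin r → M)
    (a : Fin r → L) (hfix : ∀ z : M, (∀ τ : Gl p M, ρ τ = 1 → τ z = z) → ∃ w : L, z = ι w)
    (hy : ∀ i, y i ^ p - y i = ι (a i)) (e : Fin r → Gl p M → ZMod p)
    (he : ∀ i, ∀ τ ∈ ρ.ker, τ (y i) = y i + cst p M (e i τ))
    (hT : ∀ τ ∈ ρ.ker, τ ∈ Gc p M → τ = 1)
    (hgen : ∀ (z c : Fin r → L), (∀ i, IsCst p (c i)) →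
        ∃ i, z i ^ p - z i ≠ a i + c i) : False := by
  have hch : CharP M p := charP_of_injective_algebraMap (algebraMap (Fx p) M).injective p
  have hchL : CharP L p := charP_of_injective_algebraMap (algebraMap (Fx p) L).injective p
  have hadd : ∀ i, ∀ σ ∈ ρ.ker, ∀ τ ∈ ρ.ker, e i (σ * τ) = e i σ + e i τ := by
    intro i σ hσ τ hτ
    apply (cst p M).injective
    have h1 := he i (σ * τ) (ρ.ker.mul_mem hσ hτ)
    rw [AlgEquiv.mul_apply, he i τ hτ, map_add, he i σ hσ, pk4_gl_cst, add_assoc] at h1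
    rw [map_add]
    exact (add_left_cancel h1).symm
  have hκ : ∀ i, ∃ κ : M, IsCst p κ ∧ ∀ τ ∈ ρ.ker, τ κ = κ + cst p M (e i τ) := fun i =>
    cst_h90 p M ρ.ker hT (e i) (hadd i)
  choose κ hκc hκ using hκ
  have hz : ∀ i, ∃ w : L, y i - κ i = ι w := by
    intro i
    apply hfix
    intro τ hτ
    rw [map_sub, he i τ (MonoidHom.mem_ker.2 hτ), hκ i τ (MonoidHom.mem_ker.2 hτ)]
    ring
  choose z hz using hz
  have hc : ∀ i, IsCst p (-(a i - (z i ^ p - z i))) := by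
    intro i
    apply IsCst.neg
    refine (isCst_map_iff (ι : L →+* M)).1 ?_
    have h1 : ι (a i - (z i ^ p - z i)) = κ i ^ p - κ i := by
      rw [map_sub, map_sub, map_pow, ← hy, ← hz, sub_pow_expChar]
      ring
    change IsCst p (ι (a i - (z i ^ p - z i)))
    rw [h1]
    exact ((hκc i).pow p).sub (hκc i)
  obtain ⟨i, hi⟩ := hgen z (fun i => -(a i - (z i ^ p - z i))) hc
  apply hi
  ring

theorem rf_min (p : ℕ) [Fact p.Prime] (E : Type) [Group E] [Finite E] (H U : Subgroup E)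
    [U.Normal] (hUH : U ≤ H) (hUb : U ≠ ⊥) (hab : ∀ a ∈ U, ∀ b ∈ U, a * b = b * a)
    (hp : ∀ a ∈ U, a ^ p = 1)
    (hmin : ∀ W : Subgroup E, W.Normal → W ≤ U → W = ⊥ ∨ W = U)
    (h : RF p (E ⧸ U) (H.map (QuotientGroup.mk' U))) : RF p E H := by
  classical
  obtain ⟨r, t, s, A, f, ht, h0, hU, hs, hA1, hA, hconj, hf, hcoc⟩ := ext_data p E U hab hp
  have ht0 : t 0 = 1 := by
    have h1 := ht 0 0
    rw [add_zero] at h1
    exact left_eq_mul.1 h1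
  have hr : 0 < r := by
    rcases Nat.eq_zero_or_pos r with h1 | h1
    · exfalso
      apply hUb
      rw [eq_bot_iff]
      intro g hg
      obtain ⟨u, rfl⟩ := (hU g).1 hg
      have h2 : u = 0 := by
        subst h1
        exact Subsingleton.elim _ _
      rw [h2, ht0]
      exact Subgroup.mem_bot.2 rfl
    · exact h1
  obtain ⟨L, _, _, _, _, Φ, ⟨hfin, hgal, hNI⟩, hΦ, hΦG⟩ := h
  have hA1' : (fun σ : Gl p L => A (Φ σ)) 1 = 1 := by
    show A (Φ 1) = 1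
    rw [map_one, hA1]
  have hA' : ∀ σ τ : Gl p L, A (Φ (σ * τ)) = A (Φ σ) * A (Φ τ) := fun σ τ => by
    rw [map_mul, hA]
  obtain ⟨b, a₀, hb, ha₀⟩ := coh_split p L r hNI (fun σ => A (Φ σ)) hA1' hA'
    (fun σ τ => f (Φ σ) (Φ τ)) (fun σ τ ν => by
      show (A (Φ σ)).mulVec (f (Φ τ) (Φ ν)) + f (Φ σ) (Φ (τ * ν)) =
        f (Φ (σ * τ)) (Φ ν) + f (Φ σ) (Φ τ)
      rw [map_mul, map_mul, hcoc])
  obtain ⟨h, hh, hgen⟩ := gen_fix2 p L r hr (fun σ => A (Φ σ)) hA1' hA' a₀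
  have ha : ∀ σ, sv p L r (fun σ => A (Φ σ)) σ (a₀ + h) = a₀ + h - wp p L r (b σ) := by
    intro σ
    rw [pk4_sv_add, ha₀, hh]
    abel
  obtain ⟨M, _, _, _, _, ι, ρ, y, u, hfinM, hgalM, hNIM, hι, hρ, hy, hinj, hu⟩ :=
    vec_ext p L r hNI (fun σ => A (Φ σ)) hA1' hA' b (a₀ + h) ha
  have hcu := pk4_u p L r M (fun σ => A (Φ σ)) hA' (fun σ τ => f (Φ σ) (Φ τ)) b hb ι ρ y u hι hu
  have hst : ∀ (g : E ⧸ U) (v : Fin r → ZMod p), s g * t v = t ((A g).mulVec v) * s g := by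
    intro g v
    have h1 := hconj (s g) v
    rw [hs] at h1
    rw [← h1, inv_mul_cancel_right]
  obtain ⟨Ψ, hΨ⟩ : ∃ Ψ : Gl p M →* E, ∀ τ, Ψ τ = t (u τ) * s (Φ (ρ τ)) := by
    refine ⟨MonoidHom.mk' (fun τ => t (u τ) * s (Φ (ρ τ))) fun τ₁ τ₂ => ?_, fun τ => rfl⟩
    rw [hcu τ₁ τ₂]
    show t (u τ₁ + (A (Φ (ρ τ₁))).mulVec (u τ₂) + f (Φ (ρ τ₁)) (Φ (ρ τ₂))) * s (Φ (ρ (τ₁ * τ₂))) =
      t (u τ₁) * s (Φ (ρ τ₁)) * (t (u τ₂) * s (Φ (ρ τ₂)))
    rw [map_mul, map_mul, ht, ht, mul_assoc (t (u τ₁) * _) _ _, ← hf, mul_assoc (t (u τ₁)) _ _,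
      ← mul_assoc _ (s (Φ (ρ τ₁))) _, ← hst]
    group
  have hmk : ∀ τ, (QuotientGroup.mk (Ψ τ) : E ⧸ U) = Φ (ρ τ) := by
    intro τ
    have h1 : (QuotientGroup.mk (t (u τ)) : E ⧸ U) = 1 :=
      (QuotientGroup.eq_one_iff _).2 ((hU _).2 ⟨_, rfl⟩)
    rw [hΨ, QuotientGroup.mk_mul, h1, one_mul, hs]
  -- the action of the kernel of `ρ` on `y`
  have h6 : ∀ i, ι (b 1 i : L) = cst p M (f 1 1 i) := by
    intro i
    have h7 := hb 1 1
    rw [pk4_sv_one p L r _ hA1', mul_one] at h7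
    have h8 := congrArg (fun w : Fin r → Oc p L => ι ((w i : Oc p L) : L)) h7
    simp only [cv, Pi.add_apply, Pi.sub_apply] at h8
    rw [cst_coe, as_cst, map_one, add_sub_cancel_right] at h8
    exact h8.symm
  have hye : ∀ i, ∀ τ ∈ ρ.ker, τ (y i) = y i + cst p M (-(f 1 1 i) - u τ i) := by
    intro i τ hτ
    have h1 : ρ τ = 1 := MonoidHom.mem_ker.1 hτ
    have h4 := hu τ i
    rw [h1] at h4
    have h5 : ∑ j, cst p M (A (Φ 1) i j) * τ (y j) = τ (y i) := by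
      rw [map_one, hA1, Finset.sum_eq_single i]
      · rw [Matrix.one_apply_eq, map_one, one_mul]
      · intro j _ hj
        rw [Matrix.one_apply_ne hj.symm, map_zero, zero_mul]
      · intro h6
        exact absurd (Finset.mem_univ i) h6
    rw [← h5]
    refine h4.trans ?_
    rw [h6, map_sub, map_neg]
    ring
  have hker : ∀ τ, ρ τ = 1 → Ψ τ = 1 → τ = 1 := by
    intro τ h1 h2
    have hs1 : s 1 = t (f 1 1) := by
      have h3 := hf 1 1
      rw [mul_one] at h3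
      exact mul_right_cancel h3
    rw [hΨ, h1, map_one, hs1, ← ht] at h2
    have h3 := h0 _ h2
    apply hinj τ h1
    intro i
    have h9 := congrFun h3 i
    rw [Pi.add_apply, Pi.zero_apply] at h9
    rw [hye i τ (MonoidHom.mem_ker.2 h1)]
    have h10 : -(f 1 1 i) - u τ i = 0 := by linear_combination -h9
    rw [h10, map_zero, add_zero]
  have hrange : ∀ g : E, ∃ τ, (Ψ τ)⁻¹ * g ∈ U := by
    intro g
    obtain ⟨σ, hσ⟩ := hΦ (QuotientGroup.mk g)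
    obtain ⟨τ, hτ⟩ := hρ σ
    refine ⟨τ, ?_⟩
    rw [← QuotientGroup.eq, hmk, hτ, hσ]
  have hMfix : ∀ z : M, (∀ τ : Gl p M, ρ τ = 1 → τ z = z) → ∃ w : L, z = ι w := by
    intro z hz
    refine fix_range p L M ι fun τ hτ => hz τ ?_
    ext x
    rw [AlgEquiv.one_apply]
    apply ι.toRingHom.injective
    change ι (ρ τ x) = ι x
    rw [← hι, hτ]
  have hGc : (Gc p M).map ρ = Gc p L := MsA_gcsurj p L M ι ρ hι hρ hMfix
  have hmap : ((Gc p M).map Ψ).map (QuotientGroup.mk' U) = H.map (QuotientGroup.mk' U) := by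
    rw [← hΦG, ← hGc, Subgroup.map_map, Subgroup.map_map]
    congr 1
    ext τ
    exact hmk τ
  have hWn : ((Gc p M).map Ψ ⊓ U).Normal := by
    refine ⟨fun w hw g => ?_⟩
    obtain ⟨τ, hτ⟩ := hrange g
    obtain ⟨hw1, hw2⟩ := hw
    have h1 : g * w * g⁻¹ = Ψ τ * w * (Ψ τ)⁻¹ := by
      have h2 := hab _ hτ _ hw2
      calc g * w * g⁻¹ = Ψ τ * ((Ψ τ)⁻¹ * g * w) * g⁻¹ := by group
        _ = Ψ τ * (w * ((Ψ τ)⁻¹ * g)) * g⁻¹ := by rw [h2]
        _ = Ψ τ * w * (Ψ τ)⁻¹ := by group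
    rw [h1]
    obtain ⟨σ, hσ, rfl⟩ := hw1
    refine Subgroup.mem_inf.2 ⟨⟨τ * σ * τ⁻¹, PkB_normal p M σ τ hσ, ?_⟩,
      Subgroup.Normal.conj_mem inferInstance _ hw2 _⟩
    rw [map_mul, map_mul, map_inv]
  rcases hmin ((Gc p M).map Ψ ⊓ U) hWn inf_le_right with hW | hW
  · exfalso
    refine PkB_bot p L M r ι ρ y (fun i => ((a₀ i + h i : Oc p L) : L)) hMfix hy
      (fun i τ => -(f 1 1 i) - u τ i) hye ?_ hgen
    intro τ hτ hg
    have h1 : ρ τ = 1 := MonoidHom.mem_ker.1 hτ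
    apply hker τ h1
    have h2 : Ψ τ ∈ (Gc p M).map Ψ ⊓ U := by
      refine Subgroup.mem_inf.2 ⟨⟨τ, hg, rfl⟩, ?_⟩
      rw [← QuotientGroup.eq_one_iff, hmk, h1, map_one]
    rw [hW] at h2
    exact Subgroup.mem_bot.1 h2
  · have hUG : U ≤ (Gc p M).map Ψ := by
      rw [← hW]
      exact inf_le_left
    refine ⟨M, inferInstance, inferInstance, inferInstance, inferInstance, Ψ,
      ⟨hfinM, hgalM, hNIM⟩, fun g => ?_, ?_⟩
    · obtain ⟨τ, hτ⟩ := hrange g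
      obtain ⟨τ', -, hτ'⟩ := hUG hτ
      refine ⟨τ * τ', ?_⟩
      rw [map_mul, hτ', mul_inv_cancel_left]
    · refine Subgroup.map_injective_of_ker_le (QuotientGroup.mk' U) ?_ ?_ hmap
      · rw [QuotientGroup.ker_mk']
        exact hUG
      · rw [QuotientGroup.ker_mk']
        exact hUH

end Pool.Agent.AB3
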