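import Pool.Agent.Lib.MP_5de024_nt.C.PkQ
import Pool.Agent.Lib.MP_5de024_nt.S.FinX.Map
import Pool.Agent.Lib.MP_5de024_nt.S.PkX.PkB

/-!
# Kernels which are `p`-groups
-/

set_option autoImplicit false
set_option linter.unusedSectionVars false

namespace Pool.Agent.AB3

open Pool.Agent.AB

/-- the trivial quotient -/
theorem PkC_bot {G : Type} [Group G] (H : Subgroup G) :
    (H.map (QuotientGroup.mk' (⊥ : Subgroup G))).map
      (QuotientGroup.quotientBot (G := G)).toMonoidHom = H := by
  rw [Subgroup.map_map]
  have h1 : ((QuotientGroup.quotientBot (G := G)).toMonoidHom).comp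
      (QuotientGroup.mk' (⊥ : Subgroup G)) = MonoidHom.id G := by
    ext x
    rfl
  rw [h1, Subgroup.map_id]

/-- the quotient of a quotient -/
theorem PkC_quot {G : Type} [Group G] (H U1 U : Subgroup G) [U1.Normal] [U.Normal]
    [(U.map (QuotientGroup.mk' U1)).Normal] (h : U1 ≤ U) :
    (H.map (QuotientGroup.mk' U)).map
      (QuotientGroup.quotientQuotientEquivQuotient U1 U h).symm.toMonoidHom =
      (H.map (QuotientGroup.mk' U1)).map (QuotientGroup.mk' (U.map (QuotientGroup.mk' U1))) := by
  rw [Subgroup.map_map, Subgroup.map_map]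
  have h1 : ((QuotientGroup.quotientQuotientEquivQuotient U1 U h).symm.toMonoidHom).comp
      (QuotientGroup.mk' U) =
      (QuotientGroup.mk' (U.map (QuotientGroup.mk' U1))).comp (QuotientGroup.mk' U1) := by
    ext x
    change (QuotientGroup.quotientQuotientEquivQuotient U1 U h).symm (QuotientGroup.mk' U x) =
      (QuotientGroup.mk' (U.map (QuotientGroup.mk' U1))) (QuotientGroup.mk' U1 x)
    rw [MulEquiv.symm_apply_eq]
    rfl
  rw [h1]

theorem rf_pker' (p : ℕ) [Fact p.Prime] (G : Type) [Group G] [Finite G] (H : Subgroup G)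
    (U : Subgroup G) [U.Normal] (hU : IsPGroup p U) (hUH : U ≤ H)
    (h : RF p (G ⧸ U) (H.map (QuotientGroup.mk' U))) : RF p G H := by
  suffices key : ∀ (n : ℕ) (G : Type) (_ : Group G) (_ : Finite G) (H U : Subgroup G)
      (_ : U.Normal), IsPGroup p U → U ≤ H → RF p (G ⧸ U) (H.map (QuotientGroup.mk' U)) →
      Nat.card U = n → RF p G H from
    key _ G _ inferInstance H U inferInstance hU hUH h rfl
  intro n
  induction n using Nat.strong_induction_on with
  | _ n ih =>
    intro G _ _ H U _ hU hUH h hn
    by_cases hb : U = ⊥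
    · subst hb
      exact rf_congr p QuotientGroup.quotientBot h (PkC_bot H)
    · obtain ⟨U1, ⟨hUn, hUQ, hUb⟩, hUmin⟩ := WellFounded.has_min
        (wellFounded_lt : WellFounded ((· < ·) : Subgroup G → Subgroup G → Prop))
        {W : Subgroup G | W.Normal ∧ W ≤ U ∧ W ≠ ⊥} ⟨U, inferInstance, le_rfl, hb⟩
      have hmin : ∀ W : Subgroup G, W.Normal → W ≤ U1 → W = ⊥ ∨ W = U1 := by
        intro W hW hWU
        by_cases hWb : W = ⊥
        · exact Or.inl hWb
        · right
          by_contra hne
          exact hUmin W ⟨hW, hWU.trans hUQ, hWb⟩ (lt_of_le_of_ne hWU hne)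
      have hUp : IsPGroup p U1 := hU.to_le hUQ
      obtain ⟨hab, hpw⟩ := min_elem p G U1 hUp hUb hmin
      refine rf_min p G H U1 (hUQ.trans hUH) hUb hab hpw hmin ?_
      have hlt : Nat.card (U.map (QuotientGroup.mk' U1)) < n := by
        rw [← hn]
        have hs : Function.Surjective ((QuotientGroup.mk' U1).subgroupMap U) :=
          (QuotientGroup.mk' U1).subgroupMap_surjective U
        by_contra hge
        rw [not_lt] at hge
        have hbij := hs.bijective_of_nat_card_le hge
        apply hUb
        rw [eq_bot_iff]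
        intro u hu
        have h1 : (⟨u, hUQ hu⟩ : U) = 1 := by
          apply hbij.1
          apply Subtype.ext
          change (QuotientGroup.mk' U1) u = (QuotientGroup.mk' U1) 1
          rw [map_one]
          exact (QuotientGroup.eq_one_iff u).mpr hu
        rw [Subgroup.mem_bot]
        exact congrArg Subtype.val h1
      have hnor : (U.map (QuotientGroup.mk' U1)).Normal :=
        Subgroup.Normal.map inferInstance _ (QuotientGroup.mk'_surjective U1)
      exact ih _ hlt (G ⧸ U1) _ inferInstance (H.map (QuotientGroup.mk' U1))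
        (U.map (QuotientGroup.mk' U1)) hnor (hU.map _) (Subgroup.map_mono hUH)
        (rf_congr p (QuotientGroup.quotientQuotientEquivQuotient U1 U hUQ).symm h
          (PkC_quot H U1 U hUQ)) rfl

end Pool.Agent.AB3
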